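import Pool.Agent.helper55.RI.SpecG

set_option autoImplicit false

namespace Pool.Agent.RI

open Pool.Agent.helper62 Prog Function Pool.Agent.helper81.PL

theorem S1 : S1_stmt := by
  refine ⟨⟨fun A hA => hA, fun A hA F hF => ?_⟩, KS, uF1.2.1.1, fun A hA => uF1.2.1.2 A hA⟩
  obtain ⟨h1, h2, h3, -, h5⟩ := uR2
  have hA' : REPred (fun x : W => x ∈ A) := hA
  have e1 : REPred (fun x : W × (ℕ × List W) => (F x.1)[x.2.1]? = some x.2.2) := by
    apply ComputablePred.to_re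
    refine R3.2.2.2.1 (W × (ℕ × List W)) (Option (List W)) (fun x => (F x.1)[x.2.1]?)
      (fun x => some x.2.2) ?_ ?_
    · exact Primrec.list_getElem?.to_comp.comp (hF.comp Computable.fst)
        (Computable.fst.comp Computable.snd)
    · exact Computable.option_some.comp (Computable.snd.comp Computable.snd)
  have e2 : REPred (fun x : W × (ℕ × List W) => ∀ b ∈ x.2.2, b ∈ A) := by
    refine h5 (W × (ℕ × List W)) W (fun _ b => b ∈ A) (fun x => x.2.2) ?_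
      (Computable.snd.comp Computable.snd)
    exact h2 ((W × (ℕ × List W)) × W) W (fun x => x.2) (fun x => x ∈ A) Computable.snd hA'
  have e3 := (h1 _ _ _ e1 e2).1
  have e4 := h3 W (ℕ × List W) (fun x p => (F x)[p.1]? = some p.2 ∧ ∀ b ∈ p.2, b ∈ A) e3
  change REPred (fun x : W => ∃ ℓ ∈ F x, ∀ a ∈ ℓ, a ∈ A)
  have e5 : (fun x : W => ∃ ℓ ∈ F x, ∀ a ∈ ℓ, a ∈ A) =
      fun x : W => ∃ p : ℕ × List W, (F x)[p.1]? = some p.2 ∧ ∀ b ∈ p.2, b ∈ A := by
    funext x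
    apply propext
    constructor
    · rintro ⟨ℓ, hℓ, h⟩
      obtain ⟨j, hj⟩ := List.mem_iff_getElem?.1 hℓ
      exact ⟨(j, ℓ), hj, h⟩
    · rintro ⟨⟨j, ℓ⟩, hj, h⟩
      exact ⟨ℓ, List.mem_iff_getElem?.2 ⟨j, hj⟩, h⟩
  rw [e5]
  exact e4

end Pool.Agent.RI
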